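import Pool.Agent.Y52.SJ.Stm

set_option autoImplicit false

/-! Affine maps bound the capacities (S_CAP). -/

namespace Pool.Agent.Y369.SJ

open Pool.Agent.Y52.SJ Filter Topology

variable {m : ℕ}

lemma std_sub (x y z : (Fin m → ℝ) × (Fin m → ℝ)) : std (x - y) z = std x z - std y z := by
  unfold std
  rw [← Finset.sum_sub_distrib]
  refine Finset.sum_congr rfl fun i _ => ?_
  simp only [Prod.fst_sub, Prod.snd_sub, Pi.sub_apply]
  ring

lemma std_smul (c : ℝ) (x y : (Fin m → ℝ) × (Fin m → ℝ)) :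
    std (c • x) (c • y) = c ^ 2 * std x y := by
  unfold std
  rw [Finset.mul_sum]
  refine Finset.sum_congr rfl fun i _ => ?_
  simp only [Prod.smul_fst, Prod.smul_snd, Pi.smul_apply, smul_eq_mul]
  ring

lemma std_zero (y : (Fin m → ℝ) × (Fin m → ℝ)) : std 0 y = 0 := by
  unfold std
  apply Finset.sum_eq_zero
  intro i _
  simp

lemma std_nd (x : (Fin m → ℝ) × (Fin m → ℝ)) (h : ∀ y, std x y = 0) : x = 0 := by
  have h1 : ∀ i, x.1 i = 0 := by
    intro i
    have h2 := h (0, Pi.single i 1)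
    unfold std at h2
    simpa [Pi.single_apply] using h2
  have h3 : ∀ i, x.2 i = 0 := by
    intro i
    have h2 := h (Pi.single i 1, 0)
    unfold std at h2
    simpa [Pi.single_apply] using h2
  exact Prod.ext (funext h1) (funext h3)

lemma inj_P (P : ((Fin m → ℝ) × (Fin m → ℝ)) →L[ℝ] ((Fin m → ℝ) × (Fin m → ℝ))) (s : ℝ)
    (hs : s ≠ 0) (hP : ∀ x y, std (P x) (P y) = s * std x y) : Function.Injective P := by
  intro x y hxy
  have h1 : x - y = 0 := by
    apply std_nd
    intro z
    have h2 := hP (x - y) z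
    rw [map_sub, hxy, sub_self, std_zero] at h2
    exact (mul_eq_zero.mp h2.symm).resolve_left hs
  exact sub_eq_zero.mp h1

/-- affine maps are symplectic embeddings -/
lemma emb (P : ((Fin m → ℝ) × (Fin m → ℝ)) →L[ℝ] ((Fin m → ℝ) × (Fin m → ℝ)))
    (b : (Fin m → ℝ) × (Fin m → ℝ)) (hP : ∀ x y, std (P x) (P y) = std x y)
    (U W : Set ((Fin m → ℝ) × (Fin m → ℝ))) (hUW : ∀ x ∈ U, b + P x ∈ W) : SympEmb U W := by
  refine ⟨fun z => b + P z, ?_, ?_, hUW, ?_⟩
  · exact (contDiff_const.add P.contDiff).contDiffOn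
  · intro x _ y _ hxy
    exact inj_P P 1 one_ne_zero (fun x y => by rw [one_mul]; exact hP x y) (add_left_cancel hxy)
  · intro z _ u v
    have h1 : HasFDerivAt (fun z => b + P z) P z := P.hasFDerivAt.const_add b
    rw [h1.fderiv]
    exact hP u v

theorem main : S_CAP := by
  intro n K
  constructor
  · intro P b s hs hP hK
    have hr : 0 < Real.sqrt s := Real.sqrt_pos.mpr hs
    have hr2 : Real.sqrt s ^ 2 = s := Real.sq_sqrt hs.le
    have h1 : SympEmb (ball (n + 1) (Real.sqrt s)) K := by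
      apply emb ((Real.sqrt s)⁻¹ • P) b
      · intro x y
        rw [ContinuousLinearMap.smul_apply, ContinuousLinearMap.smul_apply, std_smul, hP]
        rw [inv_pow, hr2]
        field_simp
      · intro x hx
        have h2 := hK ((Real.sqrt s)⁻¹ • x) (by
          unfold ball at hx ⊢
          rw [Set.mem_setOf_eq] at hx ⊢
          have e : ∑ i, (((Real.sqrt s)⁻¹ • x).1 i ^ 2 + ((Real.sqrt s)⁻¹ • x).2 i ^ 2) =
              s⁻¹ * ∑ i, (x.1 i ^ 2 + x.2 i ^ 2) := by
            rw [Finset.mul_sum]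
            refine Finset.sum_congr rfl fun i _ => ?_
            simp only [Prod.smul_fst, Prod.smul_snd, Pi.smul_apply, smul_eq_mul, mul_pow, inv_pow,
              hr2]
            ring
          rw [e]
          rw [hr2] at hx
          calc s⁻¹ * ∑ i, (x.1 i ^ 2 + x.2 i ^ 2) < s⁻¹ * s :=
                mul_lt_mul_of_pos_left hx (inv_pos.mpr hs)
            _ = 1 ^ 2 := by rw [inv_mul_cancel₀ hs.ne', one_pow])
        rw [map_smul] at h2
        exact h2
    unfold gromovWidth
    refine le_iSup₂_of_le (Real.sqrt s) ⟨hr, h1⟩ ?_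
    rw [hr2]
  · intro P b s hs hP hK
    have h1 : ∀ k : ℕ, cylCapacity K ≤ ENNReal.ofReal (Real.pi * (s + 1 / ((k : ℝ) + 1))) := by
      intro k
      have hk : (0 : ℝ) < 1 / ((k : ℝ) + 1) := by positivity
      have hR2 : Real.sqrt (s + 1 / ((k : ℝ) + 1)) ^ 2 = s + 1 / ((k : ℝ) + 1) :=
        Real.sq_sqrt (by linarith)
      unfold cylCapacity
      refine iInf₂_le_of_le (Real.sqrt (s + 1 / ((k : ℝ) + 1)))
        ⟨Real.sqrt_pos.mpr (by linarith), ?_⟩ ?_
      · apply emb P b hP
        intro x hx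
        have h2 := hK x hx
        unfold cyl
        rw [Set.mem_setOf_eq, hR2]
        linarith
      · rw [hR2]
    have h2 : Tendsto (fun k : ℕ => ENNReal.ofReal (Real.pi * (s + 1 / ((k : ℝ) + 1)))) atTop
        (𝓝 (ENNReal.ofReal (Real.pi * s))) := by
      apply ENNReal.tendsto_ofReal
      have h3 := (tendsto_one_div_add_atTop_nhds_zero_nat (𝕜 := ℝ)).const_add s
      rw [add_zero] at h3
      exact h3.const_mul Real.pi
    exact ge_of_tendsto' h2 h1

end Pool.Agent.Y369.SJ
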